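import Pool.Agent.Lib.MP_7f581e_K.Defs
import Pool.Agent.Lib.MP_7f581e_ntR.Defs

/-!
# C38 (MP_7f581e_nt): GA realisations over `k(X)` relative to a group of automorphisms
-/

set_option autoImplicit false

namespace MP7K

/-- `S` is a finite nonabelian simple group, the group `A` of automorphisms of `S` contains the
inner ones, and `A` acts faithfully on a field `L` which contains `k(X)`, trivially on `k`, such
that the elements of `L` which are fixed by the inner automorphisms are those of `k(X)`.  (So
`L / k(X)` is a Galois extension with group `S`.  If `A` is the group of inner automorphisms, this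
just means that `S` is a Galois group over `k(X)`; if `A` is the group of all automorphisms, this is
a GA realisation of `S`.) -/
def HasGAOver (k : Type) [Field k] (S : Type) [Group S] (A : Subgroup (MulAut S)) : Prop :=
  Finite S ∧ IsSimpleGroup S ∧ (∃ a b : S, a * b ≠ b * a) ∧ (MulAut.conj (G := S)).range ≤ A ∧
    ∃ (L : Type) (_ : Field L) (_ : Algebra (RatFunc k) L) (a : A →* (L ≃+* L)),
      Function.Injective a ∧
      (∀ (α : A) (c : k), a α (algebraMap (RatFunc k) L (RatFunc.C c)) =
        algebraMap (RatFunc k) L (RatFunc.C c)) ∧
      ∀ y : L, (∀ α : A, (α : MulAut S) ∈ (MulAut.conj (G := S)).range → a α y = y) ↔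
        ∃ x, algebraMap (RatFunc k) L x = y

/-- `M` is a power `S ^ n` of the group `S`, on which `G` acts by conjugation through the group
`A ≀ Sym(n)`: each `g` in `G` permutes the `n` coordinates by some `σ` and acts on them by elements
`α j` of `A`. -/
def ActsThrough {G : Type} [Group G] (M : Subgroup G) {S : Type} [Group S]
    (A : Subgroup (MulAut S)) : Prop :=
  ∃ (n : ℕ) (φ : M ≃* (Fin n → S)), ∀ g : G, ∃ (σ : Equiv.Perm (Fin n)) (α : Fin n → A),
    ∀ x y : M, (y : G) = g * x * g⁻¹ → ∀ j, φ y (σ j) = (α j : MulAut S) (φ x j)

end MP7K
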