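import Pool.Agent.Lib.MP_7f581e_K.T.Main
import Pool.Agent.Lib.MP_7f581e_K.R.Main
import Pool.Agent.Lib.MP_7f581e_K.F.Final

/-!
# C38 (MP_7f581e_nt): the closure theorem with relative GA realisations
-/

set_option autoImplicit false

universe u

namespace MP7K

open MP7Z MP7fR MP7fC MP7fE

/-- The kernels which are allowed: (a) the composition factors are in `IsKernelFactor p`, or (b)
the kernel is `S ^ n`, and the group acts on it through `A ≀ Sym(n)`, where `(S, A)` has a GA
realisation over `k(X)`, or (c) the kernel is `S ^ n`, where `S` is a finite nonabelian simple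
group which is a Galois group over `k(X)`, and the group acts on it through `Inn S ≀ Sym(n)`. -/
def GoodKernel (p : ℕ) [Fact p.Prime] (k : Type) [Field k] {G : Type} [Group G]
    (M : Subgroup G) : Prop :=
  HasFactors (IsKernelFactor p) M ∨
  (∃ (S : Type) (_ : Group S) (A : Subgroup (MulAut S)), HasGAOver k S A ∧ ActsThrough M A) ∨
  ∃ (S : Type) (_ : Group S), Finite S ∧ IsSimpleGroup S ∧ (∃ a b : S, a * b ≠ b * a) ∧
    Occurs S (RatFunc k) ∧ ActsThrough M (MulAut.conj (G := S)).range

/-- `Q` is obtained from `G` by finitely many surjective homomorphisms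
`G = G₀ → G₁ → ... → G_m ≃ Q`, all of whose kernels are allowed. -/
inductive Tower (p : ℕ) [Fact p.Prime] (k : Type) [Field k] (Q : Type) [Group Q] :
    (G : Type) → [Group G] → Prop
  | base (G : Type) [Group G] (e : G ≃* Q) : Tower p k Q G
  | step (G H : Type) [Group G] [Group H] (f : G →* H) (hf : Function.Surjective f)
      (hker : GoodKernel p k f.ker) (h : Tower p k Q H) : Tower p k Q G

namespace T8

section

variable {p : ℕ} [Fact p.Prime] {k : Type} [Field k] [Finite k]

/-- The kernel of a power. -/
def kp {G H : Type} [Group G] [Group H] (r : ℕ) (f : G →* H) :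
    (powHom r f).ker ≃* (Fin r → f.ker) where
  toFun x i := ⟨(x : Fin r → G) i, congrFun ((MonoidHom.mem_ker (f := powHom r f)).1 x.2) i⟩
  invFun x := ⟨fun i => (x i : G), (MonoidHom.mem_ker (f := powHom r f)).2
    (funext fun i => (x i).2)⟩
  left_inv _ := rfl
  right_inv _ := rfl
  map_mul' _ _ := rfl

theorem actsThrough_pow {G H : Type} [Group G] [Group H] {f : G →* H} {S : Type} [Group S]
    {A : Subgroup (MulAut S)} (h : ActsThrough f.ker A) (r : ℕ) :
    ActsThrough (powHom r f).ker A := by
  obtain ⟨n, φ, hφ⟩ := h
  refine ⟨r * n, ((kp r f).trans (MulEquiv.piCongrRight fun _ => φ)).trans (powPow S r n), ?_⟩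
  intro g
  choose σ α hα using fun i => hφ (g i)
  let τ : Equiv.Perm (Fin (r * n)) := finProdFinEquiv.symm.trans
    ((Equiv.sigmaEquivProd (Fin r) (Fin n)).symm.trans ((Equiv.sigmaCongrRight σ).trans
      ((Equiv.sigmaEquivProd (Fin r) (Fin n)).trans finProdFinEquiv)))
  have hτ : ∀ l, τ l = finProdFinEquiv ((finProdFinEquiv.symm l).1,
      σ (finProdFinEquiv.symm l).1 (finProdFinEquiv.symm l).2) := fun _ => rfl
  refine ⟨τ, fun l => α (finProdFinEquiv.symm l).1 (finProdFinEquiv.symm l).2, ?_⟩
  intro x y hxy l
  have h1 : ∀ (z : (powHom r f).ker) (l : Fin (r * n)),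
      (((kp r f).trans (MulEquiv.piCongrRight fun _ => φ)).trans (powPow S r n)) z l =
        φ (kp r f z (finProdFinEquiv.symm l).1) (finProdFinEquiv.symm l).2 := fun _ _ => rfl
  rw [h1, h1, hτ, Equiv.symm_apply_apply]
  exact hα _ (kp r f x _) (kp r f y _) (congrFun hxy _) _

theorem isKernelFactor_of_prime {S : Type} [Group S] (h : (Nat.card S).Prime) :
    IsKernelFactor p S := Or.inl h

/-- Kernels on which the group acts through `A ≀ Sym(n)`. -/
theorem occurs_gr [CharP k p] {S : Type} [Group S] {A : Subgroup (MulAut S)}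
    (hga : HasGAOver k S A) {E H : Type} [Group E] [Finite E] [Group H] (f : E →* H)
    (hf : Function.Surjective f) (hM : ActsThrough f.ker A) (hH : Occurs H (RatFunc k)) :
    Occurs E (RatFunc k) := by
  obtain ⟨n, φ, hφ⟩ := hM
  have hq : Occurs (E ⧸ f.ker) (RatFunc k) :=
    MP7fS.occurs_congr (QuotientGroup.quotientKerEquivOfSurjective f hf).symm hH
  obtain ⟨G', E', _, _, _, _, h, π, f', hh, hπ, hsolv, -, hsol⟩ :=
    solvesOver_gr G5.g5Twist G5.g5Orb G5.g5Ind hga f.ker φ hφ
  have h1 : Occurs G' (RatFunc k) := by
    refine closureK (p := p) k G' h.ker ?_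
      (MP7fS.occurs_congr (QuotientGroup.quotientKerEquivOfSurjective h hh).symm hq)
    exact MP7K.hasFactors_mono (fun S _ hS => isKernelFactor_of_prime hS)
      (hasFactors_of_solvable _ h.ker rfl hsolv)
  have hHil : IsHilbertian (RatFunc k) := MP7fR.isHilbertian_ratFunc k
  have h2 := MP7fE.solves_of_mv hHil f' _ (hsol (RatFunc k))
  have h3 : Occurs E' (RatFunc k) := h2.occurs h1
  exact MP7fS.occurs_of_surjective h3 π hπ

/-- For the group of inner automorphisms the condition means that `S` is a Galois group over
`k(X)`. -/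
theorem hasGAOver_inn {S : Type} [Group S] [Finite S] [IsSimpleGroup S]
    (hnc : ∃ a b : S, a * b ≠ b * a) (h : Occurs S (RatFunc k)) :
    HasGAOver k S (MulAut.conj (G := S)).range := by
  obtain ⟨L, _, _, hfd, hgal, ⟨e⟩⟩ := h
  have hcinj := G5.conj_injective (G5.center_bot hnc)
  let c : S ≃* (MulAut.conj (G := S)).range := MonoidHom.ofInjective hcinj
  let a : (MulAut.conj (G := S)).range →* (L ≃+* L) :=
    { toFun := fun α => ((e.symm (c.symm α) : L ≃ₐ[RatFunc k] L) : L ≃+* L)
      map_one' := by
        rw [map_one, map_one]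
        rfl
      map_mul' := fun α β => by
        rw [map_mul, map_mul]
        rfl }
  have ha : ∀ α y, a α y = e.symm (c.symm α) y := fun _ _ => rfl
  refine ⟨inferInstance, inferInstance, hnc, le_rfl, L, inferInstance, inferInstance, a, ?_, ?_, ?_⟩
  · intro α β h
    apply c.symm.injective
    apply e.symm.injective
    apply AlgEquiv.ext
    intro y
    rw [← ha, ← ha, h]
  · intro α x
    rw [ha, AlgEquiv.commutes]
  · intro y
    constructor
    · intro h
      have h1 : y ∈ IntermediateField.fixedField (⊤ : Subgroup (L ≃ₐ[RatFunc k] L)) := by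
        rw [IntermediateField.mem_fixedField_iff]
        intro σ _
        have h2 := h (c (e σ)) (c (e σ)).2
        rw [ha, MulEquiv.symm_apply_apply, MulEquiv.symm_apply_apply] at h2
        exact h2
      rw [IsGalois.fixedField_top] at h1
      exact h1
    · rintro ⟨x, rfl⟩ α _
      rw [ha, AlgEquiv.commutes]

/-- One step. -/
theorem occurs_step [CharP k p] {G H : Type} [Group G] [Finite G] [Group H] (f : G →* H)
    (hf : Function.Surjective f) (hk : GoodKernel p k f.ker) (hH : Occurs H (RatFunc k)) :
    Occurs G (RatFunc k) := by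
  rcases hk with hk | ⟨S, _, A, hga, hA⟩ | ⟨S, _, _, _, hnc, hS, hA⟩
  · exact closureK (p := p) k G f.ker hk
      (MP7fS.occurs_congr (QuotientGroup.quotientKerEquivOfSurjective f hf).symm hH)
  · exact occurs_gr (p := p) hga f hf hA hH
  · exact occurs_gr (p := p) (hasGAOver_inn hnc hS) f hf hA hH

/-- One step, regular version. -/
theorem regular_step [CharP k p] {G H : Type} [Group G] [Finite G] [Group H] (f : G →* H)
    (hf : Function.Surjective f) (hk : GoodKernel p k f.ker) (hH : OccursRegularly H k) :
    OccursRegularly G k := by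
  have hfin : Finite H := Finite.of_surjective f hf
  have key : ∀ (S : Type) [Group S] (A : Subgroup (MulAut S)), HasGAOver k S A →
      ActsThrough f.ker A → OccursRegularly G k := by
    intro S _ A hga hA
    set r := (Nat.card (Abelianization G)).primeFactors.card + 1 with hr
    have h1 : Occurs (Fin r → H) (RatFunc k) :=
      occurs_pow hH (MP7fR.isHilbertian_ratFunc k) r
    have h2 : Occurs (Fin r → G) (RatFunc k) :=
      occurs_gr (p := p) hga (powHom r f) (powHom_surjective r f hf) (actsThrough_pow hA r) h1
    exact (per_group (Nat.lt_succ_self _) h2).1 k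
  rcases hk with hk | ⟨S, _, A, hga, hA⟩ | ⟨S, _, _, _, hnc, hS, hA⟩
  · exact (closureK_regular f.ker hk
      (occReg_congr (QuotientGroup.quotientKerEquivOfSurjective f hf).symm hH)).1 k
  · exact key S A hga hA
  · exact key S _ (hasGAOver_inn hnc hS) hA

end

end T8

/-- **The closure theorem with relative GA realisations.** -/
theorem tower_occurs {p : ℕ} [Fact p.Prime] {k : Type} [Field k] [Finite k] [CharP k p]
    {Q : Type} [Group Q] {G : Type} [Group G] [Finite G] (h : Tower p k Q G)
    (hQ : Occurs Q (RatFunc k)) : Occurs G (RatFunc k) := by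
  suffices H : ∀ (G : Type) [Group G], Tower p k Q G → Finite G → Occurs G (RatFunc k) from
    H G h inferInstance
  intro G _ h
  induction h with
  | base G e => exact fun _ => MP7fS.occurs_congr e.symm hQ
  | step G H f hf hker _ ih =>
    intro hfin
    exact T8.occurs_step (p := p) f hf hker (ih (Finite.of_surjective f hf))

/-- The regular version. -/
theorem tower_regular {p : ℕ} [Fact p.Prime] {k : Type} [Field k] [Finite k] [CharP k p]
    {Q : Type} [Group Q] {G : Type} [Group G] [Finite G] (h : Tower p k Q G)
    (hQ : OccursRegularly Q k) :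
    (∀ (K : Type u) [Field K] [Algebra k K], OccursRegularly G K) ∧
      ∀ (K : Type u) [Field K] [Algebra k K], IsHilbertian K → Occurs G K := by
  have hreg : OccursRegularly G k := by
    suffices H : ∀ (G : Type) [Group G], Tower p k Q G → Finite G → OccursRegularly G k from
      H G h inferInstance
    intro G _ h
    induction h with
    | base G e => exact fun _ => occReg_congr e.symm hQ
    | step G H f hf hker _ ih =>
      intro hfin
      exact T8.regular_step (p := p) f hf hker (ih (Finite.of_surjective f hf))
  exact ⟨fun K _ _ => occursRegularly_baseChange hreg,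
    fun K _ _ hK => occurs_of_isHilbertian hK (occursRegularly_baseChange hreg).occurs⟩

end MP7K
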