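import Pool.Agent.Lib.MP_7f581e_K.T.Mb
import Pool.Agent.Lib.MP_7f581e_K.T.Defs

/-!
# C38 (MP_7f581e_nt): the embedding problem with kernel `S ^ n`, relative version

Adapted from `MP_7f581e_K/G5/Main.lean` (helper89).
-/

set_option autoImplicit false
set_option linter.unusedSectionVars false

namespace MP7K.T8

open Polynomial Equiv MP7fR MP7fA MP7fK

open MP7K.G5 (TwistStmt OrbStmt blk blk_mul blk_one blk_apply blk_apply_ne extG blk_isUnit
  conj_injective center_bot)

/-- The data of an extension with kernel `S ^ n`, the action through `A ≀ Sym(n)`. -/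
theorem exists_data {S : Type} [Group S] [Finite S] [IsSimpleGroup S]
    (hc : Subgroup.center S = ⊥) (A : Subgroup (MulAut S))
    (hA : (MulAut.conj (G := S)).range ≤ A) {n : ℕ} {E : Type} [Group E] [Finite E]
    (N : Subgroup E) [N.Normal] (φ : N ≃* (Fin n → S))
    (hφ : ∀ g : E, ∃ (σ : Equiv.Perm (Fin n)) (α : Fin n → A),
      ∀ x y : N, (y : E) = g * x * g⁻¹ → ∀ j, φ y (σ j) = (α j : MulAut S) (φ x j)) :
    ∃ (act : E ⧸ N →* Perm (Fin n)) (T : E → Fin n → A),
      (∀ e e' j, T (e * e') j = T e (act (e' : E ⧸ N) j) * T e' j) ∧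
      (∀ (m : N) j, (T m j : MulAut S) = MulAut.conj (φ m j)) ∧
      (∀ (e : E) (τ : Fin n → A),
        (∀ j, ∃ s, (((T e j)⁻¹ * τ j : A) : MulAut S) = MulAut.conj s) →
        ∃! e' : E, (e' : E ⧸ N) = e ∧ T e' = τ) := by
  have hcinj := conj_injective hc
  have hcj : ∀ (β : MulAut S) (x : S), β * MulAut.conj x * β⁻¹ = MulAut.conj (β x) := by
    intro β x
    ext y
    simp [MulAut.mul_apply, MulAut.conj_apply]
  have haut : ∀ α : S ≃* S, ∃! h : MulAut S, ∀ x, MulAut.conj (α x) =
      h * MulAut.conj x * h⁻¹ := by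
    intro α
    refine ⟨α, fun x => (hcj α x).symm, fun β hβ => ?_⟩
    apply MulEquiv.ext
    intro x
    have h2 := hβ x
    rw [hcj] at h2
    exact (hcinj h2).symm
  obtain ⟨act, T, hT1, hTm, hT3⟩ :=
    MP7fX.exists_aut_data hc (MulAut.conj (G := S)) hcinj haut N φ
  have hact1 : ∀ m : N, act (m : E) = 1 := by
    intro m
    rw [(QuotientGroup.eq_one_iff (m : E)).2 m.2, map_one]
  -- `T` describes the conjugation
  have hTc : ∀ (e : E) (m m' : N) (_ : (m' : E) = e * m * e⁻¹) (j : Fin n),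
      φ m' (act (e : E ⧸ N) j) = T e j (φ m j) := by
    intro e m m' hm j
    apply hcinj
    rw [← hcj]
    have h1 := hT1 e m j
    rw [hact1, Perm.one_apply, hTm] at h1
    have h2 := hT1 m' e j
    rw [hTm] at h2
    have h3 : (m' : E) * e = e * m := by
      rw [hm]
      group
    rw [h3, h1] at h2
    rw [h2]
    group
  have hmem : ∀ (e : E) (j : Fin n), T e j ∈ A := by
    intro e j
    obtain ⟨σ, α, hα⟩ := hφ e
    let cm : N → N := fun m => ⟨e * m * e⁻¹, Subgroup.Normal.conj_mem inferInstance _ m.2 _⟩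
    -- the permutations agree
    have hσ : ∀ j, σ j = act (e : E ⧸ N) j := by
      intro j
      by_contra hj
      obtain ⟨g, hg⟩ := exists_ne (1 : S)
      obtain ⟨i, hi⟩ := (act (e : E ⧸ N)).surjective (σ j)
      have hij : i ≠ j := by
        rintro rfl
        exact hj hi.symm
      set m := φ.symm (Pi.mulSingle j g) with hm
      have h1 := hα m (cm m) rfl j
      have h2 := hTc e m (cm m) rfl i
      rw [hi, h1, hm, MulEquiv.apply_symm_apply, Pi.mulSingle_eq_same,
        Pi.mulSingle_eq_of_ne hij, map_one] at h2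
      exact hg ((map_eq_one_iff _ (α j : MulAut S).injective).1 h2)
    have h3 : T e j = (α j : MulAut S) := by
      apply MulEquiv.ext
      intro s
      set m := φ.symm (Pi.mulSingle j s) with hm
      have h1 := hα m (cm m) rfl j
      have h2 := hTc e m (cm m) rfl j
      rw [hσ, h2, hm, MulEquiv.apply_symm_apply, Pi.mulSingle_eq_same] at h1
      exact h1
    rw [h3]
    exact (α j).2
  refine ⟨act, fun e j => ⟨T e j, hmem e j⟩, ?_, ?_, ?_⟩
  · intro e e' j
    apply Subtype.ext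
    exact hT1 e e' j
  · intro m j
    exact hTm m j
  · intro e τ hτ
    obtain ⟨e', ⟨h1, h2⟩, h3⟩ := hT3 e (fun j => (τ j : MulAut S)) (fun j => by
      obtain ⟨s, hs⟩ := hτ j
      exact ⟨s, hs.symm⟩)
    refine ⟨e', ⟨h1, ?_⟩, ?_⟩
    · funext j
      apply Subtype.ext
      exact congrFun h2 j
    · rintro b ⟨hb1, hb2⟩
      refine h3 b ⟨hb1, ?_⟩
      funext j
      exact congrArg Subtype.val (congrFun hb2 j)

/-- The extension of `E` by the matrices, and the solution of the embedding problem. -/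
theorem solvesOver_gr (hTw : TwistStmt) (hOrb : OrbStmt)
    (hInd : G5.IndStmt) {k : Type} [Field k] [Finite k] {S : Type} [Group S]
    {A : Subgroup (MulAut S)} (hga : HasGAOver k S A)
    {n : ℕ} {E : Type} [Group E] [Finite E] (N : Subgroup E) [N.Normal]
    (φ : N ≃* (Fin n → S))
    (hφ : ∀ g : E, ∃ (σ : Equiv.Perm (Fin n)) (α : Fin n → A),
      ∀ x y : N, (y : E) = g * x * g⁻¹ → ∀ j, φ y (σ j) = (α j : MulAut S) (φ x j)) :
    ∃ (G' E' : Type) (_ : Group G') (_ : Finite G') (_ : Group E') (_ : Finite E')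
      (h : G' →* E ⧸ N) (π : E' →* E) (f' : E' →* G'), Function.Surjective h ∧
      Function.Surjective π ∧ Group.IsSolvable h.ker ∧ (∀ x : E', (π x : E ⧸ N) = h (f' x)) ∧
      ∀ (K : Type) [Field K] [Algebra k K],
        MP7fE.SolvesOver K (FractionRing (MvPolynomial (Fin n × Fin 2) K)) f' := by
  classical
  obtain ⟨hfin, hsim, hnc, hconj, L₀, _, _, a, ha, haC, hfixA⟩ := hga
  have hc := center_bot hnc
  have hcinj := conj_injective hc
  let cj : S →* A := (MulAut.conj (G := S)).codRestrict A fun s => hconj ⟨s, rfl⟩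
  have hcjv : ∀ s, ((cj s : A) : MulAut S) = MulAut.conj s := fun _ => rfl
  have hcjinj : Function.Injective cj := fun s t hst => hcinj (congrArg Subtype.val hst)
  have hcN : cj.range.Normal := by
    constructor
    rintro _ ⟨s, rfl⟩ α
    refine ⟨(α : MulAut S) s, ?_⟩
    apply Subtype.ext
    change MulAut.conj ((α : MulAut S) s) = (α : MulAut S) * MulAut.conj s * (α : MulAut S)⁻¹
    ext y
    simp [MulAut.mul_apply, MulAut.conj_apply]
  have hfix : ∀ y : L₀, (∀ s : S, a (cj s) y = y) ↔ ∃ x, algebraMap (RatFunc k) L₀ x = y := by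
    intro y
    rw [← hfixA]
    constructor
    · rintro h α ⟨s, hs⟩
      have h1 : α = cj s := Subtype.ext hs.symm
      rw [h1]
      exact h s
    · intro h s
      exact h (cj s) ⟨s, rfl⟩
  obtain ⟨hfd₀, hgal₀, hinn, hreg⟩ := cst S hnc L₀ cj hcjinj a ha hfix
  obtain ⟨pb, hirr⟩ := exists_gen.{0} hreg
  have hfinM : Finite (MulAut S) := Finite.of_injective (fun α : MulAut S => (α : S → S))
    (fun α β h => MulEquiv.ext fun x => congrFun h x)
  have hfinA : Finite A := inferInstance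
  obtain ⟨x₀, hx₀⟩ := hOrb L₀ A a ha
  have hfix' : ∀ (s : S) (x : RatFunc k),
      a (cj s) (algebraMap _ L₀ x) = algebraMap _ L₀ x := fun s x =>
    (hfix _).2 ⟨x, rfl⟩ s
  obtain ⟨act, T, hT1, hTm, hT3⟩ := exists_data hc A hconj N φ hφ
  have hTm' : ∀ (m : N) j, T m j = cj (φ m j) := fun m j => Subtype.ext (hTm m j)
  let G' := extG act (QuotientGroup.mk' N) T (MB (k := k) a) hT1 (MB_one a) fun α β B C =>
    MB_mul a haC
  let h : G' →* E ⧸ N := (MonoidHom.fst _ _).comp G'.subtype
  let mat : G' →* Matrix (Fin n × Fin 2) (Fin n × Fin 2) k :=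
    (Units.coeHom _).comp ((MonoidHom.snd _ _).comp G'.subtype)
  have hmem : ∀ x : G', ∃ (e : E) (B : Fin n → Matrix (Fin 2) (Fin 2) k),
      (e : E ⧸ N) = h x ∧ mat x = blk (act (h x)) B ∧ ∀ j, MB (k := k) a (T e j) (B j) :=
    fun x => x.2
  have hsurj : Function.Surjective h := by
    intro x
    obtain ⟨e, rfl⟩ := QuotientGroup.mk'_surjective N x
    choose B hB using fun j => exists_MB a cj hcN haC hfix (T e j)
    obtain ⟨X, hX⟩ := blk_isUnit (act (e : E ⧸ N)) B fun j => (hB j).1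
    exact ⟨⟨((e : E ⧸ N), X), e, B, rfl, hX, hB⟩, rfl⟩
  -- the kernel
  have hTN : ∀ m : E, (m : E ⧸ N) = 1 → ∀ j, ∃ s, T m j = cj s := by
    intro m hm j
    have h1 := (QuotientGroup.eq_one_iff m).1 hm
    exact ⟨_, hTm' ⟨m, h1⟩ j⟩
  have hdiag : ∀ x : G', h x = 1 → ∃ d, mat x = Matrix.diagonal d := by
    intro x hx
    obtain ⟨e, B, he, hB, hMB⟩ := hmem x
    rw [hx] at he hB
    refine ⟨fun y => B y.1 0 0, ?_⟩
    rw [hB, map_one]
    ext ⟨i, c⟩ ⟨j, d⟩
    obtain ⟨s, hs⟩ := hTN e he j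
    have h1 := hMB j
    rw [hs] at h1
    obtain ⟨h2, h3, h4⟩ := MB_conj a cj hfix h1
    by_cases hij : i = j
    · subst hij
      rw [show blk (1 : Perm (Fin n)) B (i, c) (i, d) = B i c d from blk_apply 1 B i c d]
      rw [Matrix.diagonal_apply]
      fin_cases c <;> fin_cases d <;> simp [h2, h3, h4]
    · rw [blk_apply_ne 1 B hij, Matrix.diagonal_apply_ne _ (by simp [hij])]
  have hsolv : Group.IsSolvable h.ker := by
    refine Group.isSolvable_of_comm ?_
    rintro ⟨x, hx⟩ ⟨y, hy⟩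
    apply Subtype.ext
    change x * y = y * x
    obtain ⟨d, hd⟩ := hdiag x hx
    obtain ⟨d', hd'⟩ := hdiag y hy
    apply Subtype.ext
    refine Prod.ext ?_ ?_
    · change h x * h y = h y * h x
      rw [show h x = 1 from hx, show h y = 1 from hy]
    · apply Units.ext
      change mat x * mat y = mat y * mat x
      rw [hd, hd', Matrix.diagonal_mul_diagonal, Matrix.diagonal_mul_diagonal]
      congr 1
      funext i
      exact mul_comm _ _
  let E' : Subgroup (E × G') :=
    { carrier := {x | (x.1 : E ⧸ N) = h x.2}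
      one_mem' := (map_one h).symm
      mul_mem' := by
        rintro ⟨e, x⟩ ⟨e', x'⟩ h1 h2
        change ((e * e' : E) : E ⧸ N) = h (x * x')
        rw [map_mul, QuotientGroup.mk_mul]
        exact congrArg₂ _ h1 h2
      inv_mem' := by
        rintro ⟨e, x⟩ h1
        change ((e⁻¹ : E) : E ⧸ N) = h x⁻¹
        rw [map_inv, QuotientGroup.mk_inv]
        exact congrArg _ h1 }
  let π : E' →* E := (MonoidHom.fst _ _).comp E'.subtype
  let f' : E' →* G' := (MonoidHom.snd _ _).comp E'.subtype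
  have hE' : ∀ x : E', (π x : E ⧸ N) = h (f' x) := fun x => x.2
  have hπ : Function.Surjective π := by
    intro e
    obtain ⟨x, hx⟩ := hsurj (e : E ⧸ N)
    exact ⟨⟨(e, x), hx.symm⟩, rfl⟩
  have hf' : Function.Surjective f' := by
    intro x
    obtain ⟨e, he⟩ := QuotientGroup.mk'_surjective N (h x)
    exact ⟨⟨(e, x), he⟩, rfl⟩
  refine ⟨G', E', inferInstance, inferInstance, inferInstance, inferInstance, h, π, f', hsurj, hπ,
    hsolv, hE', ?_⟩
  intro K _ _ M _ _ hfd hgal i
  let R : (M ≃ₐ[K] M) →* Matrix (Fin n × Fin 2) (Fin n × Fin 2) K :=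
    ((RingHom.mapMatrix (algebraMap k K)).toMonoidHom).comp (mat.comp i.toMonoidHom)
  obtain ⟨Nf, _, _, _, ι, W, h1, h2, h3, h4, h5, h6, h7⟩ := hTw K M (Fin n × Fin 2) R
  have hRap : ∀ (g : M ≃ₐ[K] M) x y, R g x y = algebraMap k K (mat (i g) x y) :=
    fun _ _ _ => rfl
  refine core (F := FractionRing (MvPolynomial (Fin n × Fin 2) K)) (N := Nf) hInd pb hirr cj hcN
    a haC hfix'
    hinn x₀ hx₀ ι (act.comp (h.comp i.toMonoidHom))
    (fun g j => Matrix.of fun c c' => mat (i g) (act (h (i g)) j, c) (j, c')) W h7 h3 ?_ h5 h6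
    (i.symm.toMonoidHom.comp f') (i.symm.surjective.comp hf') (fun e => T (π e)) ?_ ?_ ?_ ?_
  · intro g j c
    have e1 := h4 g (act (h (i g)) j, c)
    rw [Fintype.sum_prod_type, Finset.sum_eq_single j] at e1
    · exact e1
    · intro k _ hk
      refine Finset.sum_eq_zero fun m _ => ?_
      obtain ⟨e, B, -, hB, -⟩ := hmem (i g)
      rw [hRap, hB, blk_apply_ne]
      · simp
      · intro h8
        exact hk ((act (h (i g))).injective h8).symm
    · intro h8
      exact absurd (Finset.mem_univ _) h8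
  · intro e e' j
    change T (π (e * e')) j = T (π e) (act (h (i (i.symm (f' e')))) j) * T (π e') j
    rw [map_mul, hT1, hE', MulEquiv.apply_symm_apply]
  · intro m hm j
    refine hTN (π m) ?_ j
    have h8 : f' m = 1 := by
      have h9 : i.symm (f' m) = 1 := hm
      rwa [map_eq_one_iff _ i.symm.injective] at h9
    rw [hE', h8, map_one]
  · intro e τ hτ
    obtain ⟨e₁, ⟨he₁, he₂⟩, he₃⟩ := hT3 (π e) τ (fun j => by
      obtain ⟨s, hs⟩ := hτ j
      exact ⟨s, congrArg Subtype.val hs⟩)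
    have h8 : (e₁ : E ⧸ N) = h (f' e) := by rw [he₁, hE']
    refine ⟨⟨(e₁, f' e), h8⟩, ⟨rfl, he₂⟩, ?_⟩
    intro b hb
    have h9 : f' b = f' e := i.symm.injective hb.1
    have h10 : π b = e₁ := he₃ (π b) ⟨by rw [hE', h9, ← hE'], hb.2⟩
    apply Subtype.ext
    exact Prod.ext h10 h9
  · intro e j
    change (Matrix.of fun c c' => mat (i (i.symm (f' e)))
      (act (h (i (i.symm (f' e)))) j, c) (j, c')).det ≠ 0 ∧ _
    obtain ⟨e₀, B, he₀, hB, hMB⟩ := hmem (f' e)
    have h8 : (Matrix.of fun c c' => mat (i (i.symm (f' e)))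
        (act (h (i (i.symm (f' e)))) j, c) (j, c')) = B j := by
      ext c c'
      rw [Matrix.of_apply, MulEquiv.apply_symm_apply, hB, blk_apply]
    have h9 : MB (k := k) a (T (π e) j) (B j) := by
      have h10 : ((e₀⁻¹ * π e : E) : E ⧸ N) = 1 := by
        rw [QuotientGroup.mk_mul, QuotientGroup.mk_inv, he₀, hE', inv_mul_cancel]
      obtain ⟨s, hs⟩ := hTN _ h10 j
      have h11 := hT1 e₀ (e₀⁻¹ * π e) j
      rw [h10, map_one, Perm.one_apply, mul_inv_cancel_left, hs] at h11
      rw [h11]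
      exact MB_mul_conj a cj haC hfix (hMB j)
    have h12 : MB (k := k) a (T (π e) j) (Matrix.of fun c c' => mat (i (i.symm (f' e)))
        (act (h (i (i.symm (f' e)))) j, c) (j, c')) := by
      rw [h8]
      exact h9
    exact h12

end MP7K.T8
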