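import Pool.Agent.Lib.MP_7f581e_K.G5.All
import Pool.Agent.Lib.MP_7f581e_K.T.Core

/-!
# C38 (MP_7f581e_nt): the action on the parameter, relative version

Adapted from `MP_7f581e_K/G5/Main.lean`, `Cst.lean` (helper89).
-/

set_option autoImplicit false
set_option linter.unusedSectionVars false

namespace MP7K.T8

open Polynomial Equiv MP7fR MP7fA MP7fK

open MP7K.G5 (TwistStmt OrbStmt blk blk_mul blk_one blk_apply blk_apply_ne extG blk_isUnit
  conj_injective center_bot)

/-- `M` describes the action of `α⁻¹` on the parameter. -/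
def MB {k : Type} [Field k] {L₀ : Type} [Field L₀] [Algebra (RatFunc k) L₀] {B : Type}
    [Group B] (a : B →* (L₀ ≃+* L₀)) (α : B) (M : Matrix (Fin 2) (Fin 2) k) :
    Prop :=
  M.det ≠ 0 ∧
    a α⁻¹ (algebraMap (RatFunc k) L₀ RatFunc.X) *
      algebraMap (RatFunc k) L₀ (RatFunc.C (M 1 0) * RatFunc.X + RatFunc.C (M 1 1)) =
    algebraMap (RatFunc k) L₀ (RatFunc.C (M 0 0) * RatFunc.X + RatFunc.C (M 0 1))

section

variable {k : Type} [Field k] {L₀ : Type} [Field L₀] [Algebra (RatFunc k) L₀]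
  {S : Type} [Group S] {B : Type} [Group B] (a : B →* (L₀ ≃+* L₀))

theorem MB_one : MB (k := k) a 1 1 := by
  refine ⟨by simp, ?_⟩
  rw [inv_one, map_one]
  simp

theorem MB_mul (haC : ∀ (α : B) (c : k), a α (algebraMap (RatFunc k) L₀ (RatFunc.C c)) =
      algebraMap (RatFunc k) L₀ (RatFunc.C c)) {α β : B} {M C : Matrix (Fin 2) (Fin 2) k}
    (hB : MB a α M) (hC : MB a β C) : MB a (α * β) (M * C) := by
  obtain ⟨hBd, hB⟩ := hB
  obtain ⟨hCd, hC⟩ := hC
  refine ⟨by rw [Matrix.det_mul]; exact mul_ne_zero hBd hCd, ?_⟩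
  have h1 := congrArg (a β⁻¹) hB
  have h2 : a β⁻¹ (a α⁻¹ (algebraMap (RatFunc k) L₀ RatFunc.X)) =
      a (α * β)⁻¹ (algebraMap (RatFunc k) L₀ RatFunc.X) := by
    rw [mul_inv_rev, map_mul]
    rfl
  simp only [map_mul, map_add, h2, haC] at h1 hC ⊢
  simp only [Matrix.mul_apply, Fin.sum_univ_two, map_add, map_mul]
  set t := algebraMap (RatFunc k) L₀ RatFunc.X with ht
  set u := a β⁻¹ t with hu
  set v := a (α * β)⁻¹ t with hv
  linear_combination (algebraMap (RatFunc k) L₀ (RatFunc.C (C 1 0)) * t +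
      algebraMap (RatFunc k) L₀ (RatFunc.C (C 1 1))) * h1 +
    (algebraMap (RatFunc k) L₀ (RatFunc.C (M 0 0)) -
      v * algebraMap (RatFunc k) L₀ (RatFunc.C (M 1 0))) * hC

/-- Existence of the matrix. -/
theorem exists_MB (cj : S →* B) (hcN : cj.range.Normal)
    (haC : ∀ (α : B) (c : k), a α (algebraMap (RatFunc k) L₀ (RatFunc.C c)) =
      algebraMap (RatFunc k) L₀ (RatFunc.C c))
    (hfix : ∀ y : L₀, (∀ s : S, a (cj s) y = y) ↔
      ∃ x, algebraMap (RatFunc k) L₀ x = y) (α : B) : ∃ M, MB (k := k) a α M := by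
  have hconj : ∀ (β : B) (s : S), ∃ s', cj s * β = β * cj s' := by
    intro β s
    have h1 := hcN.conj_mem (cj s) ⟨s, rfl⟩ β⁻¹
    obtain ⟨s', hs'⟩ := h1
    refine ⟨s', ?_⟩
    rw [hs']
    group
  have hst : ∀ (β : B) (x : RatFunc k),
      ∃ y, algebraMap (RatFunc k) L₀ y = a β (algebraMap (RatFunc k) L₀ x) := by
    intro β x
    rw [← hfix]
    intro s
    obtain ⟨s', hs'⟩ := hconj β s
    rw [← RingAut.mul_apply, ← map_mul, hs', map_mul, RingAut.mul_apply,
      (hfix (algebraMap (RatFunc k) L₀ x)).2 ⟨x, rfl⟩]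
  choose g hg using hst
  have hinj := (algebraMap (RatFunc k) L₀).injective
  let σ : RatFunc k ≃+* RatFunc k :=
    { toFun := g α⁻¹
      invFun := g α
      left_inv := fun x => by
        apply hinj
        rw [hg, hg, ← RingAut.mul_apply, ← map_mul, mul_inv_cancel, map_one]
        rfl
      right_inv := fun x => by
        apply hinj
        rw [hg, hg, ← RingAut.mul_apply, ← map_mul, inv_mul_cancel, map_one]
        rfl
      map_mul' := fun x y => by
        apply hinj
        rw [hg, map_mul, map_mul, map_mul, hg, hg]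
      map_add' := fun x y => by
        apply hinj
        rw [hg, map_add, map_add, map_add, hg, hg] }
  have hσC : ∀ c : k, σ (algebraMap k (RatFunc k) c) = algebraMap k (RatFunc k) c := by
    intro c
    apply hinj
    rw [RatFunc.algebraMap_eq_C]
    change algebraMap (RatFunc k) L₀ (g α⁻¹ (RatFunc.C c)) = _
    rw [hg, haC]
  let τ : RatFunc k ≃ₐ[k] RatFunc k := AlgEquiv.ofRingEquiv (f := σ) hσC
  obtain ⟨x1, x2, x3, x4, h1, h2⟩ := G5.MobM.first τ
  refine ⟨!![x1, x2; x3, x4], ?_, ?_⟩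
  · rw [Matrix.det_fin_two_of]
    exact h1
  · have h3 := congrArg (algebraMap (RatFunc k) L₀) h2
    rw [map_mul] at h3
    have h4 : algebraMap (RatFunc k) L₀ (τ RatFunc.X) =
        a α⁻¹ (algebraMap (RatFunc k) L₀ RatFunc.X) := hg _ _
    rw [h4] at h3
    exact h3

/-- The matrices of inner automorphisms are scalar. -/
theorem MB_conj (cj : S →* B)
    (hfix : ∀ y : L₀, (∀ s : S, a (cj s) y = y) ↔
      ∃ x, algebraMap (RatFunc k) L₀ x = y) {s : S} {M : Matrix (Fin 2) (Fin 2) k}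
    (hB : MB (k := k) a (cj s) M) : M 1 0 = 0 ∧ M 0 1 = 0 ∧ M 0 0 = M 1 1 := by
  apply G5.MobM.second
  apply (algebraMap (RatFunc k) L₀).injective
  rw [← hB.2, map_mul]
  congr 1
  rw [← map_inv]
  exact ((hfix _).2 ⟨_, rfl⟩ _).symm

theorem MB_mul_conj (cj : S →* B)
    (haC : ∀ (α : B) (c : k), a α (algebraMap (RatFunc k) L₀ (RatFunc.C c)) =
      algebraMap (RatFunc k) L₀ (RatFunc.C c))
    (hfix : ∀ y : L₀, (∀ s : S, a (cj s) y = y) ↔
      ∃ x, algebraMap (RatFunc k) L₀ x = y) {α : B} {s : S}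
    {M : Matrix (Fin 2) (Fin 2) k} (hB : MB (k := k) a α M) :
    MB (k := k) a (α * cj s) M := by
  have h1 : MB (k := k) a (cj s) 1 := by
    refine ⟨by simp, ?_⟩
    rw [← map_inv, (hfix (algebraMap (RatFunc k) L₀ RatFunc.X)).2 ⟨_, rfl⟩ _]
    simp
  have h2 := MB_mul a haC hB h1
  rwa [mul_one] at h2

end

/-- The extension is finite, Galois and regular. -/
theorem cst {k : Type} [Field k] [Finite k] (S : Type) [Group S] [Finite S] [IsSimpleGroup S]
    (hS : ∃ a b : S, a * b ≠ b * a) (L : Type) [Field L] [Algebra (RatFunc k) L]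
    {B : Type} [Group B] (cj : S →* B) (hcj : Function.Injective cj)
    (a : B →* (L ≃+* L)) (ha : Function.Injective a)
    (hfix : ∀ y : L, (∀ s : S, a (cj s) y = y) ↔ ∃ x, algebraMap (RatFunc k) L x = y) :
    FiniteDimensional (RatFunc k) L ∧ IsGalois (RatFunc k) L ∧
    (∀ τ : L ≃ₐ[RatFunc k] L, ∃ s : S, ∀ y, τ y = a (cj s) y) ∧
    ∀ x : L, (∃ f : Polynomial k, f ≠ 0 ∧
      Polynomial.eval₂ ((algebraMap (RatFunc k) L).comp
        (algebraMap k (RatFunc k))) x f = 0) →
      ∃ c : k, algebraMap (RatFunc k) L (algebraMap k (RatFunc k) c) = x := by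
  classical
  let c : S →* (L ≃+* L) := a.comp cj
  have hc : Function.Injective c := ha.comp hcj
  let act : MulSemiringAction S L := MulSemiringAction.compHom L c
  have hact : ∀ (s : S) (y : L), s • y = a (cj s) y := fun s y => rfl
  have hfaith : FaithfulSMul S L := ⟨fun {s s'} h => hc (RingEquiv.ext fun y => h y)⟩
  have hbase : ∀ (s : S) (x : RatFunc k),
      s • algebraMap (RatFunc k) L x = algebraMap (RatFunc k) L x :=
    fun s x => (hfix _).2 ⟨x, rfl⟩ s
  have hcomm : SMulCommClass S (RatFunc k) L := ⟨fun s x y => by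
    rw [Algebra.smul_def, smul_mul', hbase, Algebra.smul_def]⟩
  have hinv : Algebra.IsInvariant (RatFunc k) L S := ⟨fun y hy => (hfix y).1 hy⟩
  have hgg : IsGaloisGroup S (RatFunc k) L := ⟨hfaith, hcomm, hinv⟩
  have hfd : FiniteDimensional (RatFunc k) L :=
    IsGaloisGroup.finiteDimensional S (RatFunc k) L
  have hgal : IsGalois (RatFunc k) L := IsGaloisGroup.isGalois S (RatFunc k) L
  refine ⟨hfd, hgal, ?_, ?_⟩
  · intro τ
    obtain ⟨s, hs⟩ := (IsGaloisGroup.mulEquivAlgEquiv S (RatFunc k) L).surjective τ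
    refine ⟨s, fun y => ?_⟩
    rw [← hs]
    rfl
  · rintro x ⟨f, hf0, hf⟩
    let alg : Algebra k L :=
      ((algebraMap (RatFunc k) L).comp (algebraMap k (RatFunc k))).toAlgebra
    have htow : IsScalarTower k (RatFunc k) L :=
      IsScalarTower.of_algebraMap_eq (fun _ => rfl)
    have hx : IsIntegral k x := by
      rw [← isAlgebraic_iff_isIntegral]
      exact ⟨f, hf0, hf⟩
    have hcomm2 : SMulCommClass S k L := ⟨fun s t y => by
      rw [Algebra.smul_def, smul_mul', Algebra.smul_def,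
        IsScalarTower.algebraMap_apply k (RatFunc k) L, hbase]⟩
    let K0 : IntermediateField k L := IntermediateField.adjoin k {x}
    have hK0 : FiniteDimensional k K0 := IntermediateField.adjoin.finiteDimensional hx
    have hK1 : Finite K0 := Module.finite_of_finite k
    let ψ : S →* (L ≃ₐ[k] L) := MulSemiringAction.toAlgAut S k L
    let χ : S →* (K0 ≃ₐ[k] K0) := (AlgEquiv.restrictNormalHom K0).comp ψ
    have hcy : ∀ u v : (K0 ≃ₐ[k] K0), u * v = v * u := by
      intro u v
      have : IsCyclic (K0 ≃ₐ[k] K0) := inferInstance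
      exact IsCyclic.commGroup.mul_comm u v
    have hxK : x ∈ K0 := IntermediateField.mem_adjoin_simple_self k x
    have hfx : ∀ s : S, a (cj s) x = x := by
      intro s
      have h1 := G5.CstM.hom_trivial S _ hS hcy χ s
      have h2 := AlgEquiv.restrictNormal_commutes (ψ s) K0 ⟨x, hxK⟩
      have h3 : (ψ s).restrictNormal K0 = 1 := h1
      rw [h3] at h2
      exact h2.symm
    obtain ⟨y, hy⟩ := (hfix x).1 hfx
    have hyi : IsIntegral k y := by
      rw [← hy] at hx
      exact (isIntegral_algebraMap_iff (algebraMap (RatFunc k) L).injective).1 hx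
    obtain ⟨t, ht⟩ := MP7fR.ratFunc_isIntegral y hyi
    exact ⟨t, by rw [ht, hy]⟩

end MP7K.T8
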